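import Pool.Agent.J4H20.LV.Stm
import Pool.Agent.J4H21.TP.R3P

/-!
# Project LV of helper20: (ST), stability of the number of real solutions

The polynomial part of the `m`-th root of a monic polynomial of degree `m e` depends continuously on the
coefficients (`root_conv`); with `S_PL` (roots from limits) this gives `t_ST : TQ.S_PL → S_ST`.
-/

set_option autoImplicit false

namespace Pool.Agent.J4H6.LV

open Polynomial Filter Topology
open Pool.Agent.J4H20.LV Pool.Agent.J4H21.TP

/-- the sum `∑ H ^ i G ^ (m - 1 - i)` of two monic polynomials of degree `e` -/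
theorem geo_aux (m e : ℕ) (G H : ℝ[X]) (hG : G.Monic) (hGn : G.natDegree = e)
    (hH : H.Monic) (hHn : H.natDegree = e) :
    (∑ i ∈ Finset.range m, H ^ i * G ^ (m - 1 - i)).coeff ((m - 1) * e) = m ∧
      (∑ i ∈ Finset.range m, H ^ i * G ^ (m - 1 - i)).natDegree ≤ (m - 1) * e := by
  have hT : ∀ j ∈ Finset.range m, (H ^ j * G ^ (m - 1 - j)).Monic ∧
      (H ^ j * G ^ (m - 1 - j)).natDegree = (m - 1) * e := by
    intro j hj
    rw [Finset.mem_range] at hj
    refine ⟨(hH.pow j).mul (hG.pow _), ?_⟩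
    rw [(hH.pow j).natDegree_mul (hG.pow _), hH.natDegree_pow, hG.natDegree_pow, hHn, hGn,
      ← add_mul]
    congr 1
    omega
  constructor
  · rw [finsetSum_coeff, Finset.sum_congr rfl (g := fun _ => (1 : ℝ))]
    · simp
    · intro j hj
      obtain ⟨h1, h2⟩ := hT j hj
      rw [← h2]
      exact h1.coeff_natDegree
  · exact natDegree_sum_le_of_forall_le _ _ fun j hj => (hT j hj).2.le

/-- the coefficients with index larger than `t`, up to `e` -/
noncomputable def trn (t e : ℕ) (P : ℝ[X]) : ℝ[X] := ∑ i ∈ Finset.Ioc t e, C (P.coeff i) * X ^ i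

theorem trn_coeff (t e : ℕ) (P : ℝ[X]) (n : ℕ) :
    (trn t e P).coeff n = if t < n ∧ n ≤ e then P.coeff n else 0 := by
  unfold trn
  rw [finsetSum_coeff]
  simp only [coeff_C_mul, coeff_X_pow]
  by_cases h : t < n ∧ n ≤ e
  · rw [if_pos h, Finset.sum_eq_single n]
    · simp
    · intro b _ hb
      rw [if_neg (Ne.symm hb), mul_zero]
    · intro hn
      exact absurd (Finset.mem_Ioc.2 h) hn
  · rw [if_neg h]
    refine Finset.sum_eq_zero fun i hi => ?_
    rw [if_neg, mul_zero]
    rintro rfl
    exact h (Finset.mem_Ioc.1 hi)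

theorem trn_monic (t e : ℕ) (hte : t < e) (P : ℝ[X]) (hP : P.Monic) (hPn : P.natDegree = e) :
    (trn t e P).Monic ∧ (trn t e P).natDegree = e := by
  have h1 : (trn t e P).coeff e = 1 := by
    rw [trn_coeff, if_pos ⟨hte, le_rfl⟩, ← hPn]
    exact hP.coeff_natDegree
  have h2 : (trn t e P).natDegree ≤ e := by
    rw [natDegree_le_iff_coeff_eq_zero]
    intro n hn
    rw [trn_coeff, if_neg]
    omega
  exact ⟨monic_of_natDegree_le_of_coeff_eq_one e h2 h1,
    le_antisymm h2 (le_natDegree_of_ne_zero (by rw [h1]; exact one_ne_zero))⟩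

/-- the next coefficient of the root -/
theorem next_coeff (m e t : ℕ) (hte : t < e) (P : ℝ[X]) (hP : P.Monic)
    (hPn : P.natDegree = e) :
    (P ^ m).coeff (t + (m - 1) * e) = P.coeff t * m + ((trn t e P) ^ m).coeff (t + (m - 1) * e) := by
  obtain ⟨hT, hTn⟩ := trn_monic t e hte P hP hPn
  obtain ⟨h1, h2⟩ := geo_aux m e (trn t e P) P hT hTn hP hPn
  have h3 : (P - trn t e P).natDegree ≤ t := by
    rw [natDegree_le_iff_coeff_eq_zero]
    intro n hn
    rw [coeff_sub, trn_coeff]
    by_cases hne : n ≤ e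
    · rw [if_pos ⟨hn, hne⟩, sub_self]
    · rw [if_neg (by omega), sub_zero]
      apply coeff_eq_zero_of_natDegree_lt
      omega
  have h4 : (P - trn t e P).coeff t = P.coeff t := by
    rw [coeff_sub, trn_coeff, if_neg (by omega), sub_zero]
  have h5 := (Commute.all P (trn t e P)).mul_geom_sum₂ m
  have h6 : P ^ m = (P - trn t e P) * (∑ i ∈ Finset.range m, P ^ i * trn t e P ^ (m - 1 - i)) +
      trn t e P ^ m := by
    rw [h5]
    ring
  rw [h6, coeff_add, coeff_mul_add_eq_of_natDegree_le h3 h2, h1, h4]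

/-- the root depends continuously on the coefficients -/
theorem root_conv (m e : ℕ) (hm : 1 ≤ m) (g r : ℝ[X]) (G R : ℕ → ℝ[X]) (hg : g.Monic)
    (hgn : g.natDegree = e) (hr : r.degree < ((m - 1) * e : ℕ)) (hG : ∀ k, (G k).Monic)
    (hGn : ∀ k, (G k).natDegree = e) (hR : ∀ k, (R k).degree < ((m - 1) * e : ℕ))
    (hlim : CT (fun k => G k ^ m + R k) (g ^ m + r)) : CT G g := by
  have hm0 : (m : ℝ) ≠ 0 := by
    have : 0 < m := hm
    exact_mod_cast this.ne'
  have hkey : ∀ (P S : ℝ[X]) (t : ℕ), P.Monic → P.natDegree = e → S.degree < ((m - 1) * e : ℕ) →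
      t < e → P.coeff t = ((P ^ m + S).coeff (t + (m - 1) * e) -
        ((trn t e P) ^ m).coeff (t + (m - 1) * e)) / m := by
    intro P S t hP hPn hS hte
    rw [eq_div_iff hm0, coeff_add, next_coeff m e t hte P hP hPn]
    have : S.coeff (t + (m - 1) * e) = 0 := by
      apply coeff_eq_zero_of_degree_lt
      refine hS.trans_le ?_
      exact_mod_cast Nat.le_add_left _ _
    rw [this]
    ring
  have hall : ∀ d, ∀ t, t + d = e → Tendsto (fun k => (G k).coeff t) atTop (𝓝 (g.coeff t)) := by
    intro d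
    induction d using Nat.strong_induction_on with
    | _ d ih =>
      intro t ht
      rcases Nat.eq_zero_or_pos d with hd | hd
      · subst hd
        have h1 : ∀ k, (G k).coeff t = 1 := by
          intro k
          have : t = (G k).natDegree := by rw [hGn]; omega
          rw [this]
          exact (hG k).coeff_natDegree
        have h2 : g.coeff t = 1 := by
          have : t = g.natDegree := by rw [hgn]; omega
          rw [this]
          exact hg.coeff_natDegree
        simp only [h1, h2]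
        exact tendsto_const_nhds
      · have hte : t < e := by omega
        have h1 : CT (fun k => trn t e (G k)) (trn t e g) := by
          unfold trn
          refine CT.sum _ fun i hi => ?_
          rw [Finset.mem_Ioc] at hi
          refine CT.mul (CT.cc ?_) (CT.const _)
          exact ih (e - i) (by omega) i (by omega)
        rw [hkey g r t hg hgn hr hte]
        have h2 : ∀ k, (G k).coeff t = ((G k ^ m + R k).coeff (t + (m - 1) * e) -
            ((trn t e (G k)) ^ m).coeff (t + (m - 1) * e)) / m :=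
          fun k => hkey (G k) (R k) t (hG k) (hGn k) (hR k) hte
        simp only [h2]
        exact ((hlim _).sub ((h1.pow m) _)).div_const _
  intro t
  rcases Nat.lt_or_ge e t with ht | ht
  · have h1 : ∀ k, (G k).coeff t = 0 := fun k =>
      coeff_eq_zero_of_natDegree_lt (by rw [hGn]; exact ht)
    have h2 : g.coeff t = 0 := coeff_eq_zero_of_natDegree_lt (by rw [hgn]; exact ht)
    simp only [h1, h2]
    exact tendsto_const_nhds
  · exact hall (e - t) t (by omega)

theorem CT_prod {ι : Type} (s : Finset ι) {Q : ι → ℕ → ℝ[X]} {P : ι → ℝ[X]}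
    (h : ∀ i ∈ s, CT (Q i) (P i)) : CT (fun m => ∏ i ∈ s, Q i m) (∏ i ∈ s, P i) := by
  classical
  induction s using Finset.induction_on with
  | empty => simp only [Finset.prod_empty]; exact CT.const 1
  | insert a s ha ih =>
    simp only [Finset.prod_insert ha]
    exact (h a (Finset.mem_insert_self _ _)).mul (ih fun i hi => h i (Finset.mem_insert_of_mem hi))

/-- degree of the equation -/
theorem deg_ST (m e j : ℕ) (hm : 2 ≤ m) (hje : j < e) (g r h : ℝ[X]) (σ : ℝ) (hg : g.Monic)
    (hgn : g.natDegree = e) (hh : h.Monic) (hhn : h.natDegree = j)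
    (hr : r.degree < ((m - 1) * e : ℕ)) (hσ : σ ≠ 0) :
    (g + C σ * h) ^ m - (g ^ m + r) ≠ 0 ∧
      ((g + C σ * h) ^ m - (g ^ m + r)).natDegree ≤ (m - 1) * e + j := by
  have h1 : (C σ * h).degree < g.degree := by
    rw [degree_eq_natDegree hg.ne_zero, hgn]
    rw [degree_C_mul hσ, degree_eq_natDegree hh.ne_zero, hhn]
    exact_mod_cast hje
  have hH : (g + C σ * h).Monic := hg.add_of_left h1
  have hHn : (g + C σ * h).natDegree = e := by
    rw [natDegree_add_eq_left_of_degree_lt h1, hgn]
  obtain ⟨h2, h3⟩ := geo_aux m e g (g + C σ * h) hg hgn hH hHn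
  have h4 := (Commute.all (g + C σ * h) g).mul_geom_sum₂ m
  rw [add_sub_cancel_left] at h4
  have h5 : (g + C σ * h) ^ m - (g ^ m + r) = C σ * h *
      (∑ i ∈ Finset.range m, (g + C σ * h) ^ i * g ^ (m - 1 - i)) - r := by
    rw [h4]
    ring
  have h6 : (C σ * h).natDegree ≤ j := (natDegree_C_mul_le _ _).trans hhn.le
  have h7 : (C σ * h).coeff j = σ := by
    rw [coeff_C_mul, ← hhn, hh.coeff_natDegree, mul_one]
  have h8 : r.coeff (j + (m - 1) * e) = 0 := by
    apply coeff_eq_zero_of_degree_lt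
    refine hr.trans_le ?_
    exact_mod_cast Nat.le_add_left _ _
  have h9 : ((g + C σ * h) ^ m - (g ^ m + r)).coeff (j + (m - 1) * e) = σ * m := by
    rw [h5, coeff_sub, coeff_mul_add_eq_of_natDegree_le h6 h3, h2, h7, h8, sub_zero]
  constructor
  · intro h0
    rw [h0, coeff_zero] at h9
    have hm0 : (m : ℝ) ≠ 0 := by
      have : 0 < m := by omega
      exact_mod_cast this.ne'
    exact mul_ne_zero hσ hm0 h9.symm
  · rw [h5]
    refine (natDegree_sub_le _ _).trans (max_le ?_ ?_)
    · refine natDegree_mul_le.trans ?_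
      omega
    · have := natDegree_le_of_degree_le hr.le
      omega

/-- stability of the number of real solutions -/
theorem t_ST : Pool.Agent.J4H20.TQ.S_PL → S_ST := by
  intro hPL m e j ρ b g r h σ hm he hje hg hgn hh hhn hr hprod hσ ⟨w, hwinj, hw, hwc⟩
  by_contra hcon
  push Not at hcon
  have hδ : ∀ k : ℕ, 0 < σ / ((k : ℝ) + 2) := fun k => by positivity
  choose b' g' r' h' σ' hg' hgn' hh' hhn' hr' hprod' hb' hhc' hσ' hne using
    fun k : ℕ => hcon (σ / ((k : ℝ) + 2)) (hδ k)
  have hδ0 : Tendsto (fun k : ℕ => σ / ((k : ℝ) + 2)) atTop (𝓝 0) := by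
    apply Tendsto.div_atTop tendsto_const_nhds
    exact tendsto_atTop_add_const_right _ _ tendsto_natCast_atTop_atTop
  have hconv : ∀ (u : ℕ → ℝ) (v : ℝ), (∀ k, |u k - v| < σ / ((k : ℝ) + 2)) →
      Tendsto u atTop (𝓝 v) := by
    intro u v huv
    rw [tendsto_iff_dist_tendsto_zero]
    refine squeeze_zero (fun k => dist_nonneg) (fun k => ?_) hδ0
    rw [Real.dist_eq]
    exact (huv k).le
  have hσ'0 : ∀ k, σ' k ≠ 0 := by
    intro k
    have h1 := hσ' k
    have h2 : σ / ((k : ℝ) + 2) < σ := by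
      rw [div_lt_iff₀ (by positivity)]
      have : (0 : ℝ) ≤ k := Nat.cast_nonneg k
      nlinarith
    rw [abs_lt] at h1
    intro h3
    rw [h3] at h1
    linarith [h1.1]
  have hbt : ∀ i, Tendsto (fun k => b' k i) atTop (𝓝 (b i)) := fun i =>
    hconv _ _ fun k => hb' k i
  have hft : CT (fun k => g' k ^ m + r' k) (g ^ m + r) := by
    rw [← hprod]
    simp only [← hprod']
    refine CT_prod _ fun i _ => (CT.const _).sub (CT.cc (hbt i))
  have hgt : CT g' g := root_conv m e (by omega) g r g' r' hg hgn hr hg' hgn' hr' hft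
  have hht : CT h' h := fun i => hconv _ _ fun k => hhc' k i
  have hσt : Tendsto σ' atTop (𝓝 σ) := hconv _ _ fun k => hσ' k
  have hPt : CT (fun k => (g' k + C (σ' k) * h' k) ^ m - (g' k ^ m + r' k))
      ((g + C σ * h) ^ m - (g ^ m + r)) :=
    ((hgt.add ((CT.cc hσt).mul hht)).pow m).sub hft
  have hfin := hPL (Fin ((m - 1) * e + j))
    (fun k => (g' k + C (σ' k) * h' k) ^ m - (g' k ^ m + r' k)) (fun _ _ => 0) (fun _ _ => 1)
    (fun _ _ => 1) (fun _ => (g + C σ * h) ^ m - (g ^ m + r)) w
    (fun k => by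
      obtain ⟨h1, h2⟩ := deg_ST m e j hm hje (g' k) (r' k) (h' k) (σ' k) (hg' k) (hgn' k) (hh' k)
        (hhn' k) (hr' k) (hσ'0 k)
      refine ⟨h1, ?_⟩
      rw [Fintype.card_fin]
      exact h2)
    (fun _ _ => one_ne_zero)
    (fun i d => by
      simp only [C_0, zero_add, C_1, one_mul, comp_X]
      exact hPt d)
    hw
    (fun i i' hii ζ ξ hζ hξ => by
      simp only [Complex.ofReal_zero, Complex.ofReal_one, zero_add, one_mul]
      have hne' : w i ≠ w i' := fun h => hii (hwinj h)
      have hopen : IsOpen {p : ℂ × ℂ | p.1 ≠ p.2} := isOpen_ne_fun continuous_fst continuous_snd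
      exact (hζ.prodMk_nhds hξ).eventually (hopen.mem_nhds hne'))
  obtain ⟨k, -, hk⟩ := hfin.exists
  apply hne k
  rw [← hwc, ← hk]
  congr 1
  ext x
  simp only [Set.mem_ofPred_eq, eval_sub, eval_pow, eval_add, eval_mul, eval_C]
  rw [sub_eq_zero]

end Pool.Agent.J4H6.LV
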